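import Pool.Agent.Lib.MP_4fbe7c_an.UL.Iface
import Pool.Agent.Lib.MP_4fbe7c_an.UL.H38.Lgp
import Pool.Agent.Lib.MP_4fbe7c_an.UL.H78.Rtp
import Pool.Agent.Lib.MP_4fbe7c_an.UL.H41.Ste
import Pool.Agent.Lib.MP_4fbe7c_an.UL.H56.Wts
import Pool.Agent.Lib.MP_4fbe7c_an.UL.H32.Eta

/-!
Module DVF (helper33): the time derivative of the functional.
-/

set_option autoImplicit false

open Set

namespace Pool.Agent.Lib.MP_4fbe7c_an.UL.H33

open Pool.Agent.Lib.MP_4fbe7c_an.SD Pool.Agent.Lib.MP_4fbe7c_an.SD.Lyap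
  Pool.Agent.Lib.MP_4fbe7c_an.UL

/-! ### The pointwise identity -/

/-- The logarithmic part at one point. -/
theorem point_log (n : ℕ) (r η P Pv Rv : ℕ → ℝ) (ρ₀ θ θ' : ℝ) (hρ : ρ₀ ≠ 0) (hθ : θ ≠ 0)
    (hP : ∀ k, k ≤ n → P k ≠ 0) :
    (∑ k ∈ Finset.range (n + 1), (θ * (Lm r η k - Lm r η (k + 1))) *
        (Pv k / P k * (Rv k / P k)))
      - (∑ k ∈ Finset.range (n + 1), ((η k * r k - η (k + 1) * r (k + 1)) * θ') * (Rv k / P k))
      - ρ₀ * θ * ((θ' / θ) * (Pv n / P n - θ' / θ))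
      = ρ₀ * θ * Qlog n r η (fun k => P k / P n) (fun k => Pv k / P n)
          (fun k => Rv k / (ρ₀ * P n)) (θ' / θ) := by
  have hn : P n ≠ 0 := hP n le_rfl
  have e1 : ∀ k ∈ Finset.range (n + 1),
      (Lm r η k - Lm r η (k + 1)) * (bs (fun k => P k / P n) (fun k => Pv k / P n) k *
        bs (fun k => P k / P n) (fun k => Rv k / (ρ₀ * P n)) k)
      = (1 / (ρ₀ * θ)) * ((θ * (Lm r η k - Lm r η (k + 1))) *
        (Pv k / P k * (Rv k / P k))) := by
    intro k hk
    have hk' : P k ≠ 0 := hP k (Nat.lt_succ_iff.mp (Finset.mem_range.mp hk))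
    simp only [bs]
    field_simp
  have e2 : ∀ k ∈ Finset.range (n + 1),
      (η k * r k - η (k + 1) * r (k + 1)) *
        bs (fun k => P k / P n) (fun k => Rv k / (ρ₀ * P n)) k
      = (1 / ρ₀) * ((η k * r k - η (k + 1) * r (k + 1)) * (Rv k / P k)) := by
    intro k hk
    have hk' : P k ≠ 0 := hP k (Nat.lt_succ_iff.mp (Finset.mem_range.mp hk))
    simp only [bs]
    field_simp
  have e3 : ∀ k ∈ Finset.range (n + 1),
      ((η k * r k - η (k + 1) * r (k + 1)) * θ') * (Rv k / P k)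
      = θ' * ((η k * r k - η (k + 1) * r (k + 1)) * (Rv k / P k)) := by
    intro k hk
    ring
  unfold Qlog
  rw [Finset.sum_congr rfl e1, Finset.sum_congr rfl e2, Finset.sum_congr rfl e3,
    ← Finset.mul_sum, ← Finset.mul_sum, ← Finset.mul_sum]
  generalize (∑ k ∈ Finset.range (n + 1), (θ * (Lm r η k - Lm r η (k + 1))) *
        (Pv k / P k * (Rv k / P k))) = X
  generalize (∑ k ∈ Finset.range (n + 1), (η k * r k - η (k + 1) * r (k + 1)) * (Rv k / P k)) = Y
  field_simp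
  ring

/-- The second part at one point. -/
theorem point_a (n c : ℕ) (r P Pv Rv : ℕ → ℝ) (ρ₀ θ θ' m lam A : ℝ) (hρ : ρ₀ ≠ 0)
    (hθ : θ ≠ 0) (hc : c ≤ n) (hP : ∀ k, k ≤ n → P k ≠ 0) :
    (∑ j ∈ Finset.Ico c n, nu r (j + 1) *
      ((A * (m - P n) - lam * θ' * (Rv (j + 1) / P (j + 1))
          + A * (Pv (j + 1) / P (j + 1) * (Rv (j + 1) / P (j + 1))))
        - (A * (m - P n) - lam * θ' * (Rv c / P c) + A * (Pv c / P c * (Rv c / P c)))
        + (-(lam * θ' * (Rv c / P (j + 1) - Rv (j + 1) * P c / P (j + 1) ^ 2))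
          + A * (Rv c * Pv (j + 1) / P (j + 1) ^ 2 + Rv (j + 1) * Pv c / P (j + 1) ^ 2
            - 2 * (Rv (j + 1) * P c * Pv (j + 1) / P (j + 1) ^ 3)))))
      = -(ρ₀ * θ * (lam * (θ' / θ) * Tf n c r (fun k => P k / P n) (fun k => Rv k / (ρ₀ * P n))
          + A / θ * Hf n c r (fun k => P k / P n) (fun k => Pv k / P n)
              (fun k => Rv k / (ρ₀ * P n)))) := by
  have hn : P n ≠ 0 := hP n le_rfl
  have hc' : P c ≠ 0 := hP c hc
  unfold Tf Hf
  rw [Finset.mul_sum, Finset.mul_sum, ← Finset.sum_add_distrib, Finset.mul_sum,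
    ← Finset.sum_neg_distrib]
  refine Finset.sum_congr rfl fun j hj => ?_
  have hj' : P (j + 1) ≠ 0 := hP (j + 1) (Finset.mem_Ico.mp hj).2
  simp only [bs]
  field_simp
  ring

/-! ### The mass -/

theorem ii {L : ℝ} (hL : 0 < L) {f : ℝ → ℝ} (hf : ContinuousOn f (Icc 0 L)) :
    IntervalIntegrable f MeasureTheory.volume 0 L := by
  apply ContinuousOn.intervalIntegrable
  rwa [uIcc_of_le hL.le]

theorem mass_deriv (L : ℝ) (m : ℝ → ℝ) (n : ℕ) (ρ : ℕ → ℝ) (u v w : ℕ → ℝ → ℝ → ℝ)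
    (h : SolN L m n ρ u v w) (t : ℝ) (ht : 0 < t) :
    HasDerivAt (fun t => ∫ x in (0)..L, Ps (fun i => u i t) n x)
      (∫ x in (0)..L, Ps (fun i => u i t) n x * (m x - Ps (fun i => u i t) n x)) t := by
  have hL := h.hL
  have hn : ∀ i ∈ Finset.range (n + 1), i ≤ n := fun i hi => by
    have := Finset.mem_range.1 hi
    omega
  have spm : ContinuousOn (fun p : ℝ × ℝ => m p.2) (Ioi 0 ×ˢ Icc 0 L) := space_continuousOn h.cm
  let U : ℝ → ℝ → ℝ := fun s x => ∑ i ∈ Finset.range (n + 1), u i s x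
  let ut : ℕ → ℝ → ℝ → ℝ := fun i s x => ρ i * w i s x + u i s x * (m x - U s x)
  let Pt : ℝ → ℝ → ℝ := fun s x => ∑ i ∈ Finset.range (n + 1), ut i s x
  have cU : ContinuousOn (fun p : ℝ × ℝ => U p.1 p.2) (Ioi 0 ×ˢ Icc 0 L) :=
    continuousOn_finsetSum _ fun i hi => h.cu i (hn i hi)
  have cPt : ContinuousOn (fun p : ℝ × ℝ => Pt p.1 p.2) (Ioi 0 ×ˢ Icc 0 L) :=
    continuousOn_finsetSum _ fun i hi =>
      ((h.cw i (hn i hi)).const_mul (ρ i)).add ((h.cu i (hn i hi)).mul (spm.sub cU))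
  have hV := hasDerivAt_integral hL cU cPt (fun s hs x hx =>
    HasDerivAt.fun_sum fun i hi => h.dt i (hn i hi) s hs x hx) t ht
  refine hV.congr_deriv ?_
  have sU : ContinuousOn (U t) (Icc 0 L) := slice_continuousOn ht cU
  let Rv : ℝ → ℝ := fun x => ∑ i ∈ Finset.range (n + 1), ρ i * v i t x
  let Rw : ℝ → ℝ := fun x => ∑ i ∈ Finset.range (n + 1), ρ i * w i t x
  have sRw : ContinuousOn Rw (Icc 0 L) :=
    continuousOn_finsetSum _ fun i hi =>
      (slice_continuousOn ht (h.cw i (hn i hi))).const_mul (ρ i)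
  have dR : DerivOn L Rv Rw := fun x hx =>
    HasDerivWithinAt.fun_sum fun i hi => (h.dxx i (hn i hi) t ht x hx).const_mul (ρ i)
  have hJ := integral_deriv hL dR sRw
  have r0 : Rv 0 = 0 := Finset.sum_eq_zero fun i hi => by rw [h.b0 i (hn i hi) t ht, mul_zero]
  have rL : Rv L = 0 := Finset.sum_eq_zero fun i hi => by rw [h.bL i (hn i hi) t ht, mul_zero]
  rw [r0, rL, sub_zero] at hJ
  have e1 : ∀ x, Pt t x = Rw x + U t x * (m x - U t x) := by
    intro x
    simp only [Pt, ut, Rw, U]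
    rw [Finset.sum_add_distrib, Finset.sum_mul]
  have i1 : IntervalIntegrable Rw MeasureTheory.volume 0 L := ii hL sRw
  have i2 : IntervalIntegrable (fun x => U t x * (m x - U t x)) MeasureTheory.volume 0 L :=
    ii hL (sU.mul (h.cm.sub sU))
  have e2 : ∫ x in (0)..L, Pt t x = ∫ x in (0)..L, (Rw x + U t x * (m x - U t x)) :=
    intervalIntegral.integral_congr fun x _ => e1 x
  rw [e2, intervalIntegral.integral_add i1 i2, hJ, zero_add]
  rfl

/-- Splitting an integral. -/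
theorem split_int {L : ℝ} (hL : 0 < L) (s₁ s₂ : Finset ℕ) (f₀ : ℝ → ℝ) (f₁ f₂ : ℕ → ℝ → ℝ)
    (a : ℕ → ℝ) (h₀ : ContinuousOn f₀ (Icc 0 L)) (h₁ : ∀ k ∈ s₁, ContinuousOn (f₁ k) (Icc 0 L))
    (h₂ : ∀ k ∈ s₂, ContinuousOn (f₂ k) (Icc 0 L)) :
    ∫ x in (0)..L, (f₀ x - (∑ k ∈ s₁, f₁ k x) + ∑ j ∈ s₂, a j * f₂ j x) =
      (∫ x in (0)..L, f₀ x) - (∑ k ∈ s₁, ∫ x in (0)..L, f₁ k x)
        + ∑ j ∈ s₂, a j * ∫ x in (0)..L, f₂ j x := by
  have i₀ := ii hL h₀
  have i₁ : ∀ k ∈ s₁, IntervalIntegrable (f₁ k) MeasureTheory.volume 0 L := fun k hk =>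
    ii hL (h₁ k hk)
  have c₂ : ∀ k ∈ s₂, ContinuousOn (fun x => a k * f₂ k x) (Icc 0 L) := fun k hk =>
    continuousOn_const.mul (h₂ k hk)
  have i₂ : ∀ k ∈ s₂, IntervalIntegrable (fun x => a k * f₂ k x) MeasureTheory.volume 0 L :=
    fun k hk => ii hL (c₂ k hk)
  have I₁ : IntervalIntegrable (fun x => ∑ k ∈ s₁, f₁ k x) MeasureTheory.volume 0 L :=
    ii hL (continuousOn_finsetSum s₁ h₁)
  have I₂ : IntervalIntegrable (fun x => ∑ k ∈ s₂, a k * f₂ k x) MeasureTheory.volume 0 L :=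
    ii hL (continuousOn_finsetSum s₂ c₂)
  rw [intervalIntegral.integral_add (i₀.sub I₁) I₂, intervalIntegral.integral_sub i₀ I₁,
    intervalIntegral.integral_finsetSum i₁, intervalIntegral.integral_finsetSum i₂]
  congr 1
  exact Finset.sum_congr rfl fun j _ => intervalIntegral.integral_const_mul _ _

/-! ### The main computation -/

theorem dvf_of (hl : LgpStatement) (hr : RtpStatement) (hs : SteStatement)
    (hw : WtsStatement) : DvfStatement := by
  intro L a₀ b m θ θ' θ'' n c ρ u v w hsol hord hrts hst ha hb hθ t ht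
  have hL := hsol.hL
  have hW := hw n c (rr n ρ) a₀ b hrts ha hb
  have hρ0 : 0 < ρ 0 := hord.pos
  have cn : c ≤ n := hrts.cn
  have mem : ∀ {k i : ℕ}, k ≤ n → i ∈ Finset.range (k + 1) → i ≤ n := fun hk hi =>
    (Nat.lt_succ_iff.mp (Finset.mem_range.mp hi)).trans hk
  have hj1 : ∀ {j : ℕ}, j ∈ Finset.Ico c n → j + 1 ≤ n := fun hj => (Finset.mem_Ico.mp hj).2
  have hk1 : ∀ {k : ℕ}, k ∈ Finset.range (n + 1) → k ≤ n := fun hk =>
    Nat.lt_succ_iff.mp (Finset.mem_range.mp hk)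
  have hb0 : 0 < b := by
    have h0 := hθ 0 ⟨le_rfl, hL.le⟩
    linarith [h0.1, h0.2]
  have θpos := hst.pos
  have cθ : ContinuousOn θ (Icc 0 L) := hst.d1.continuousOn
  have cθ' : ContinuousOn θ' (Icc 0 L) := hst.d2.continuousOn
  -- the weights
  have clam : ContinuousOn (fun x => lamf b (θ x)) (Icc 0 L) := by
    unfold lamf
    refine continuousOn_const.add (ContinuousOn.log (continuousOn_const.div cθ
      fun x hx => (θpos x hx).ne') fun x hx => (div_pos hb0 (θpos x hx)).ne')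
  have ceta : ∀ k, ContinuousOn (fun x => etaf c (rr n ρ) (lamf b (θ x)) k) (Icc 0 L) := by
    intro k
    unfold etaf
    by_cases hk : k = 0
    · simp only [hk, if_true]
      exact continuousOn_const
    · simp only [hk, if_false]
      refine ContinuousOn.div_const (continuousOn_const.sub ?_) _
      unfold Qk
      exact continuousOn_const.mul (Real.continuous_exp.comp_continuousOn
        ((clam.mul continuousOn_const).neg))
  let β : ℕ → ℝ → ℝ := fun k x => bet c (rr n ρ) b k (θ x)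
  let β' : ℕ → ℝ → ℝ := fun k x => (etaf c (rr n ρ) (lamf b (θ x)) k * rr n ρ k -
    etaf c (rr n ρ) (lamf b (θ x)) (k + 1) * rr n ρ (k + 1)) * θ' x
  let A : ℝ → ℝ := fun x => Af a₀ b (θ x)
  let A' : ℝ → ℝ := fun x => lamf b (θ x) * θ' x
  have dβ : ∀ k, k ≤ n → DerivOn L (β k) (β' k) := fun k hk x hx =>
    ((hW (θ x) (hθ x hx).1 (hθ x hx).2).2.2.2.2.2 k hk).comp_hasDerivWithinAt x (hst.d1 x hx)
  have dA : DerivOn L A A' := fun x hx =>
    ((hW (θ x) (hθ x hx).1 (hθ x hx).2).2.2.1).comp_hasDerivWithinAt x (hst.d1 x hx)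
  have cβ : ∀ k, k ≤ n → ContinuousOn (β k) (Icc 0 L) := fun k hk => (dβ k hk).continuousOn
  have cA : ContinuousOn A (Icc 0 L) := dA.continuousOn
  have cA' : ContinuousOn A' (Icc 0 L) := clam.mul cθ'
  have cβ' : ∀ k, ContinuousOn (β' k) (Icc 0 L) := fun k =>
    (((ceta k).mul continuousOn_const).sub ((ceta (k + 1)).mul continuousOn_const)).mul cθ'
  -- the fields
  let P : ℝ → ℕ → ℝ → ℝ := fun s k x => Ps (fun i => u i s) k x
  let Pv : ℕ → ℝ → ℝ := fun k x => Ps (fun i => v i t) k x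
  let Rv : ℕ → ℝ → ℝ := fun k x => Rs ρ (fun i => v i t) k x
  have ppos : ∀ s, 0 < s → ∀ k, k ≤ n → ∀ x ∈ Icc 0 L, 0 < P s k x := by
    intro s hs' k hk x hx
    exact Finset.sum_pos (fun i hi => hsol.pos i (mem hk hi) s hs' x hx)
      ⟨0, Finset.mem_range.mpr (Nat.succ_pos k)⟩
  have pne : ∀ s, 0 < s → ∀ k, k ≤ n → ∀ x ∈ Icc 0 L, P s k x ≠ 0 :=
    fun s hs' k hk x hx => (ppos s hs' k hk x hx).ne'
  have cP : ∀ s, 0 < s → ∀ k, k ≤ n → ContinuousOn (P s k) (Icc 0 L) := by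
    intro s hs' k hk
    exact continuousOn_finsetSum _ fun i hi => (hsol.dx i (mem hk hi) s hs').continuousOn
  have cPv : ∀ k, k ≤ n → ContinuousOn (Pv k) (Icc 0 L) := by
    intro k hk
    exact continuousOn_finsetSum _ fun i hi => (hsol.dxx i (mem hk hi) t ht).continuousOn
  have cRv : ∀ k, k ≤ n → ContinuousOn (Rv k) (Icc 0 L) := by
    intro k hk
    exact continuousOn_finsetSum _ fun i hi =>
      ((hsol.dxx i (mem hk hi) t ht).continuousOn).const_mul (ρ i)
  have clog : ∀ s, 0 < s → ∀ k, k ≤ n → ContinuousOn (fun x => Real.log (P s k x)) (Icc 0 L) :=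
    fun s hs' k hk => (cP s hs' k hk).log (pne s hs' k hk)
  -- splitting the functional
  have split : ∀ s, 0 < s → Fu L n c (rr n ρ) (fun k x => bet c (rr n ρ) b k (θ x))
      (fun x => Af a₀ b (θ x)) u s =
      (∫ x in (0)..L, P s n x)
      - (∑ k ∈ Finset.range (n + 1), ∫ x in (0)..L, β k x * Real.log (P s k x))
      + ∑ j ∈ Finset.Ico c n, nu (rr n ρ) (j + 1) *
        ((∫ x in (0)..L, A x * Real.log (P s (j + 1) x))
          - (∫ x in (0)..L, A x * Real.log (P s c x))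
          + (∫ x in (0)..L, A x * (P s c x / P s (j + 1) x)) - ∫ x in (0)..L, A x) := by
    intro s hs'
    have c2 : ∀ k ∈ Finset.range (n + 1), ContinuousOn
        (fun x => β k x * Real.log (P s k x)) (Icc 0 L) := fun k hk =>
      (cβ k (hk1 hk)).mul (clog s hs' k (hk1 hk))
    have c3 : ∀ j ∈ Finset.Ico c n, ContinuousOn
        (fun x => A x * (Real.log (P s (j + 1) x)
          - Real.log (P s c x) - 1 + P s c x / P s (j + 1) x)) (Icc 0 L) := fun j hj =>
      cA.mul (((((clog s hs' (j + 1) (hj1 hj)).sub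
        (clog s hs' c cn)).sub continuousOn_const).add
        ((cP s hs' c cn).div (cP s hs' (j + 1) (hj1 hj)) (pne s hs' (j + 1) (hj1 hj)))))
    have key := split_int hL (Finset.range (n + 1)) (Finset.Ico c n) (P s n)
      (fun k x => β k x * Real.log (P s k x))
      (fun j x => A x * (Real.log (P s (j + 1) x)
          - Real.log (P s c x) - 1 + P s c x / P s (j + 1) x))
      (fun j => nu (rr n ρ) (j + 1)) (cP s hs' n le_rfl) c2 c3
    have e1 : Fu L n c (rr n ρ) (fun k x => bet c (rr n ρ) b k (θ x))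
      (fun x => Af a₀ b (θ x)) u s = ∫ x in (0)..L, (P s n x
        - (∑ k ∈ Finset.range (n + 1), β k x * Real.log (P s k x))
        + ∑ j ∈ Finset.Ico c n, nu (rr n ρ) (j + 1) * (A x * (Real.log (P s (j + 1) x)
          - Real.log (P s c x) - 1 + P s c x / P s (j + 1) x))) := by
      unfold Fu
      refine intervalIntegral.integral_congr fun x _ => ?_
      show _ + _ = _ + _
      congr 1
      refine Finset.sum_congr rfl fun j _ => ?_
      show A x * (nu (rr n ρ) (j + 1) * _) = _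
      ring
    rw [e1, key]
    congr 1
    refine Finset.sum_congr rfl fun j hj => ?_
    have j1 : IntervalIntegrable (fun x => A x * Real.log (P s (j + 1) x))
      MeasureTheory.volume 0 L := ii hL (cA.mul (clog s hs' (j + 1) (hj1 hj)))
    have j2 : IntervalIntegrable (fun x => A x * Real.log (P s c x))
      MeasureTheory.volume 0 L := ii hL (cA.mul (clog s hs' c cn))
    have j3 : IntervalIntegrable (fun x => A x * (P s c x / P s (j + 1) x))
      MeasureTheory.volume 0 L := ii hL (cA.mul ((cP s hs' c cn).div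
        (cP s hs' (j + 1) (hj1 hj)) (pne s hs' (j + 1) (hj1 hj))))
    have j4 : IntervalIntegrable A MeasureTheory.volume 0 L := ii hL cA
    rw [← intervalIntegral.integral_sub j1 j2, ← intervalIntegral.integral_add (j1.sub j2) j3,
      ← intervalIntegral.integral_sub ((j1.sub j2).add j3) j4]
    congr 1
    refine intervalIntegral.integral_congr fun x _ => ?_
    show A x * _ = _
    ring
  -- the derivative, term by term
  let D1 : ℕ → ℝ → ℝ := fun k x => β k x * (m x - P t n x) - β' k x * (Rv k x / P t k x)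
    + β k x * (Pv k x / P t k x * (Rv k x / P t k x))
  let D2 : ℕ → ℝ → ℝ := fun k x => A x * (m x - P t n x) - A' x * (Rv k x / P t k x)
    + A x * (Pv k x / P t k x * (Rv k x / P t k x))
  let D3 : ℕ → ℝ → ℝ := fun k x => -(A' x * (Rv c x / P t k x - Rv k x * P t c x / P t k x ^ 2))
    + A x * (Rv c x * Pv k x / P t k x ^ 2 + Rv k x * Pv c x / P t k x ^ 2
      - 2 * (Rv k x * P t c x * Pv k x / P t k x ^ 3))
  have h0 := mass_deriv L m n ρ u v w hsol t ht
  have h1 : ∀ k ∈ Finset.range (n + 1), HasDerivAt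
      (fun s => ∫ x in (0)..L, β k x * Real.log (P s k x)) (∫ x in (0)..L, D1 k x) t :=
    fun k hk => hl L m n ρ u v w (β k) (β' k) k hsol (hk1 hk) (dβ k (hk1 hk)) (cβ' k) t ht
  have h2 : ∀ k, k ≤ n → HasDerivAt
      (fun s => ∫ x in (0)..L, A x * Real.log (P s k x)) (∫ x in (0)..L, D2 k x) t :=
    fun k hk => hl L m n ρ u v w A A' k hsol hk dA cA' t ht
  have h3 : ∀ k, k ≤ n → HasDerivAt
      (fun s => ∫ x in (0)..L, A x * (P s c x / P s k x)) (∫ x in (0)..L, D3 k x) t :=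
    fun k hk => hr L m n ρ u v w A A' c k hsol cn hk dA cA' t ht
  have h4 := (h0.sub (HasDerivAt.fun_sum h1)).add (HasDerivAt.fun_sum fun j hj =>
    (((((h2 (j + 1) (hj1 hj)).sub (h2 c cn)).add (h3 (j + 1) (hj1 hj))).sub_const
      (∫ x in (0)..L, A x)).const_mul (nu (rr n ρ) (j + 1))))
  have h5 := h4.congr_of_eventuallyEq
    (f₁ := Fu L n c (rr n ρ) (fun k x => bet c (rr n ρ) b k (θ x)) (fun x => Af a₀ b (θ x)) u)
    (by
      filter_upwards [Ioi_mem_nhds ht] with s hs'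
      exact split s hs')
  refine h5.congr_deriv ?_
  -- the value
  have cD1 : ∀ k ∈ Finset.range (n + 1), ContinuousOn (D1 k) (Icc 0 L) := fun k hk =>
    (((cβ k (hk1 hk)).mul (hsol.cm.sub (cP t ht n le_rfl))).sub ((cβ' k).mul
      ((cRv k (hk1 hk)).div (cP t ht k (hk1 hk)) (pne t ht k (hk1 hk))))).add
      ((cβ k (hk1 hk)).mul (((cPv k (hk1 hk)).div (cP t ht k (hk1 hk)) (pne t ht k (hk1 hk))).mul
      ((cRv k (hk1 hk)).div (cP t ht k (hk1 hk)) (pne t ht k (hk1 hk)))))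
  have cD2 : ∀ k, k ≤ n → ContinuousOn (D2 k) (Icc 0 L) := fun k hk =>
    ((cA.mul (hsol.cm.sub (cP t ht n le_rfl))).sub (cA'.mul
      ((cRv k hk).div (cP t ht k hk) (pne t ht k hk)))).add
      (cA.mul (((cPv k hk).div (cP t ht k hk) (pne t ht k hk)).mul
      ((cRv k hk).div (cP t ht k hk) (pne t ht k hk))))
  have cD3 : ∀ k, k ≤ n → ContinuousOn (D3 k) (Icc 0 L) := fun k hk => by
    have a1 := cP t ht k hk
    have a2 := cP t ht c cn
    have a3 := cPv k hk
    have a4 := cPv c cn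
    have a5 := cRv k hk
    have a6 := cRv c cn
    have a7 : ∀ x ∈ Icc 0 L, P t k x ^ 2 ≠ 0 := fun x hx => pow_ne_zero 2 (pne t ht k hk x hx)
    have a8 : ∀ x ∈ Icc 0 L, P t k x ^ 3 ≠ 0 := fun x hx => pow_ne_zero 3 (pne t ht k hk x hx)
    exact ((cA'.mul ((a6.div a1 (pne t ht k hk)).sub ((a5.mul a2).div (a1.pow 2) a7))).neg).add
      (cA.mul ((((a6.mul a3).div (a1.pow 2) a7).add ((a5.mul a4).div (a1.pow 2) a7)).sub
        (continuousOn_const.mul (((a5.mul a2).mul a3).div (a1.pow 3) a8))))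
  have cD : ∀ j ∈ Finset.Ico c n, ContinuousOn
      (fun x => D2 (j + 1) x - D2 c x + D3 (j + 1) x) (Icc 0 L) := fun j hj =>
    ((cD2 (j + 1) (hj1 hj)).sub (cD2 c cn)).add (cD3 (j + 1) (hj1 hj))
  have cM : ContinuousOn (fun x => P t n x * (m x - P t n x)) (Icc 0 L) :=
    (cP t ht n le_rfl).mul (hsol.cm.sub (cP t ht n le_rfl))
  have key := split_int hL (Finset.range (n + 1)) (Finset.Ico c n)
    (fun x => P t n x * (m x - P t n x)) D1 (fun j x => D2 (j + 1) x - D2 c x + D3 (j + 1) x)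
    (fun j => nu (rr n ρ) (j + 1)) cM cD1 cD
  have e2 : (∑ j ∈ Finset.Ico c n, nu (rr n ρ) (j + 1) *
      ∫ x in (0)..L, (D2 (j + 1) x - D2 c x + D3 (j + 1) x)) =
      ∑ j ∈ Finset.Ico c n, nu (rr n ρ) (j + 1) *
        ((∫ x in (0)..L, D2 (j + 1) x) - (∫ x in (0)..L, D2 c x)
          + ∫ x in (0)..L, D3 (j + 1) x) := by
    refine Finset.sum_congr rfl fun j hj => ?_
    have j1 := ii hL (cD2 (j + 1) (hj1 hj))
    have j2 := ii hL (cD2 c cn)
    have j3 := ii hL (cD3 (j + 1) (hj1 hj))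
    rw [← intervalIntegral.integral_sub j1 j2, ← intervalIntegral.integral_add (j1.sub j2) j3]
  rw [e2] at key
  refine key.symm.trans ?_
  -- the equation of the steady state
  have dPn : DerivOn L (P t n) (Pv n) := fun x hx =>
    HasDerivWithinAt.fun_sum fun i hi => hsol.dx i (mem le_rfl hi) t ht x hx
  have hste := hs L (ρ 0) m θ θ' θ'' (P t n) (Pv n) hL hρ0 hsol.cm hst dPn (cPv n le_rfl)
  let T : ℝ → ℝ := fun x => (-(P t n x - θ x) ^ 2
        + ρ 0 * ((P t n x - θ x) * (θ' x / θ x) *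
            (Zx n (fun i => u i t) (fun i => v i t) x n - θ' x / θ x))
        - ρ 0 * θ x * Qf n c (lamf b (θ x)) (Af a₀ b (θ x) / θ x) (rr n ρ)
            (etaf c (rr n ρ) (lamf b (θ x))) (Sx n (fun i => u i t) x)
            (Zx n (fun i => u i t) (fun i => v i t) x)
            (Zzx n ρ (fun i => u i t) (fun i => v i t) x) (θ' x / θ x))
  let G : ℝ → ℝ := fun x => P t n x * (m x - P t n x) - (∑ k ∈ Finset.range (n + 1), D1 k x)
    + ∑ j ∈ Finset.Ico c n, nu (rr n ρ) (j + 1) * (D2 (j + 1) x - D2 c x + D3 (j + 1) x)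
  let E₁ : ℝ → ℝ := fun x => (P t n x - θ x) * (m x - θ x)
  let E₂ : ℝ → ℝ := fun x => θ' x / θ x * (Pv n x - P t n x * (θ' x / θ x))
  have cG : ContinuousOn G (Icc 0 L) := by
    refine (cM.sub (continuousOn_finsetSum _ cD1)).add (continuousOn_finsetSum _ fun j hj => ?_)
    exact continuousOn_const.mul (cD j hj)
  have cE₁ : ContinuousOn E₁ (Icc 0 L) := ((cP t ht n le_rfl).sub cθ).mul (hsol.cm.sub cθ)
  have cz : ContinuousOn (fun x => θ' x / θ x) (Icc 0 L) :=
    cθ'.div cθ fun x hx => (θpos x hx).ne'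
  have cE₂ : ContinuousOn E₂ (Icc 0 L) :=
    cz.mul ((cPv n le_rfl).sub ((cP t ht n le_rfl).mul cz))
  have pt : ∀ x ∈ Icc 0 L, T x = G x - E₁ x + ρ 0 * E₂ x := by
    intro x hx
    have hθx : θ x ≠ 0 := (θpos x hx).ne'
    have hPx : ∀ k, k ≤ n → P t k x ≠ 0 := fun k hk => pne t ht k hk x hx
    have w1 := point_log n (rr n ρ) (etaf c (rr n ρ) (lamf b (θ x))) (fun k => P t k x)
      (fun k => Pv k x) (fun k => Rv k x) (ρ 0) (θ x) (θ' x) hρ0.ne' hθx hPx
    have w2 := point_a n c (rr n ρ) (fun k => P t k x) (fun k => Pv k x) (fun k => Rv k x)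
      (ρ 0) (θ x) (θ' x) (m x) (lamf b (θ x)) (A x) hρ0.ne' hθx cn hPx
    have w3 : (∑ k ∈ Finset.range (n + 1), D1 k x) = θ x * (m x - P t n x)
        - (∑ k ∈ Finset.range (n + 1), β' k x * (Rv k x / P t k x))
        + ∑ k ∈ Finset.range (n + 1), β k x * (Pv k x / P t k x * (Rv k x / P t k x)) := by
      have hsum : (∑ k ∈ Finset.range (n + 1), β k x) = θ x :=
        (hW (θ x) (hθ x hx).1 (hθ x hx).2).2.2.2.2.1
      rw [← hsum, Finset.sum_mul, ← Finset.sum_sub_distrib, ← Finset.sum_add_distrib]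
    have w4 : (∑ j ∈ Finset.Ico c n, nu (rr n ρ) (j + 1) *
        (D2 (j + 1) x - D2 c x + D3 (j + 1) x)) =
        -(ρ 0 * θ x * (lamf b (θ x) * (θ' x / θ x) * Tf n c (rr n ρ)
            (fun k => P t k x / P t n x) (fun k => Rv k x / (ρ 0 * P t n x))
          + A x / θ x * Hf n c (rr n ρ) (fun k => P t k x / P t n x)
              (fun k => Pv k x / P t n x) (fun k => Rv k x / (ρ 0 * P t n x)))) := w2
    have w5 : T x = -(P t n x - θ x) ^ 2
        + ρ 0 * ((P t n x - θ x) * (θ' x / θ x) * (Pv n x / P t n x - θ' x / θ x))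
        - ρ 0 * θ x * (Qlog n (rr n ρ) (etaf c (rr n ρ) (lamf b (θ x)))
            (fun k => P t k x / P t n x) (fun k => Pv k x / P t n x)
            (fun k => Rv k x / (ρ 0 * P t n x)) (θ' x / θ x)
          + lamf b (θ x) * (θ' x / θ x) * Tf n c (rr n ρ)
            (fun k => P t k x / P t n x) (fun k => Rv k x / (ρ 0 * P t n x))
          + A x / θ x * Hf n c (rr n ρ) (fun k => P t k x / P t n x)
              (fun k => Pv k x / P t n x) (fun k => Rv k x / (ρ 0 * P t n x))) := rfl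
    have w6 : (∑ k ∈ Finset.range (n + 1), β k x * (Pv k x / P t k x * (Rv k x / P t k x)))
        - (∑ k ∈ Finset.range (n + 1), β' k x * (Rv k x / P t k x))
        - ρ 0 * θ x * ((θ' x / θ x) * (Pv n x / P t n x - θ' x / θ x))
        = ρ 0 * θ x * Qlog n (rr n ρ) (etaf c (rr n ρ) (lamf b (θ x)))
            (fun k => P t k x / P t n x) (fun k => Pv k x / P t n x)
            (fun k => Rv k x / (ρ 0 * P t n x)) (θ' x / θ x) := w1
    have w7 : G x = P t n x * (m x - P t n x) - (∑ k ∈ Finset.range (n + 1), D1 k x)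
      + ∑ j ∈ Finset.Ico c n, nu (rr n ρ) (j + 1) * (D2 (j + 1) x - D2 c x + D3 (j + 1) x) := rfl
    have w8 : P t n x * (Pv n x / P t n x) = Pv n x := by
      have := hPx n le_rfl
      field_simp
    rw [w7, w3, w4, w5]
    show _ = _ - (P t n x - θ x) * (m x - θ x)
      + ρ 0 * (θ' x / θ x * (Pv n x - P t n x * (θ' x / θ x)))
    linear_combination w6 + ρ 0 * (θ' x / θ x) * w8
  have i3 : ∫ x in (0)..L, T x = ∫ x in (0)..L, (G x - E₁ x + ρ 0 * E₂ x) := by
    refine intervalIntegral.integral_congr fun x hx => ?_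
    rw [uIcc_of_le hL.le] at hx
    exact pt x hx
  have i4 : IntervalIntegrable (fun x => ρ 0 * E₂ x) MeasureTheory.volume 0 L :=
    ii hL (continuousOn_const.mul cE₂)
  show (∫ x in (0)..L, G x) = ∫ x in (0)..L, T x
  rw [i3, intervalIntegral.integral_add ((ii hL cG).sub (ii hL cE₁)) i4,
    intervalIntegral.integral_sub (ii hL cG) (ii hL cE₁), intervalIntegral.integral_const_mul]
  have : (∫ x in (0)..L, E₁ x) = ρ 0 * ∫ x in (0)..L, E₂ x := hste
  rw [this]
  ring

/-- DVF. -/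
theorem dvf : DvfStatement :=
  dvf_of H38.lgp H78.rtp H41.ste (H56.wts H32.eta)

end Pool.Agent.Lib.MP_4fbe7c_an.UL.H33
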